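import Pool.Agent.H.MP_ac3185_nt.D14.Univ

/-! Q1 (the parity conjecture) for all quadratic twists, over all finite extensions of the base field, of
all abelian varieties, with at most one exceptional class for each of them, over all fields of one
infinite multiquadratic tower. -/

set_option autoImplicit false

open CategoryTheory AlgebraicGeometry NumberField IsDedekindDomain
open scoped MonObj
open Pool.Agent.H.MP_ac3185_nt Pool.Agent.H.MP_ac3185_nt.OE Pool.Agent.H.MP_ac3185_nt.D14

namespace Pool.Agent.Results.MP_ac3185_nt.AllExtensions

universe u

/-- Let `K` be a number field, `X` a set of elements of `K` such that `K(√x : x ∈ X)` has infinite degree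
over `K`, and for every finite extension `k` of `K` let `A k i`, `i ∈ I`, be countably many abelian
varieties over `k` (for example all of them, up to isomorphism). There are pairwise disjoint finite
subsets `S j` of `X` whose products `D j` are independent modulo squares in `K`, such that the following
is true for all finite extensions `k` of `K` and all finite subsets `J` of `I`.

There is a set `E` of fewer than `2 ^ |J|` elements of `k*` such that for every finite extension `F` of
`k` there is a set `E'` of fewer than `2 ^ |J|` elements of `F*` with the following properties. Let `a`
be in `F*`, and let `A_i^a` be the quadratic twist of `A k i` by `a`, over `F`, for `i ∈ J`.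

(0) For every `i` the parity conjecture is true for `A_i^a` over all the fields `M` in `𝓢(F)`, or it is
false over all of them.

(1) If `a` is not the product of an element of `E'` and a square in `F`, there is a `c` in `F*` such
that the parity conjecture is true for all `A_i^a` over all the fields `M` in `𝓢(F, c)`.

(2) If `a` is not the product of an element of `E` and a square in `F`, there is a finite extension `F₁`
of `F`, in which `a` is a square only if it is one in `F`, such that the parity conjecture is true for
all `A_i^a` over all the fields `M` in `𝓢(F₁)`.

Here `𝓢(F)` is the set of all the fields `M ≠ F` of finite degree in the field `T` generated over `F` by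
the square roots of the `D j` with `j ≥ n` (together with all the finite Galois extensions `M` of `F`
with `M ∩ T ≠ F`, whose quadratic subextensions lie in `T` and whose Galois groups have a normal
`2`-complement, for instance nilpotent groups), for some `n` which depends on `F` and on the twist, and
`𝓢(F, c)` is the set of the fields `M` which contain `√c`, with `M ∩ T ≠ F` and with `T(√c)` instead of
`T` (`GoodTail`, `BadTail`). The global root number is `1` over all these fields `M`.

In particular, for one abelian variety `A` over a number field `k` there is at most one class `q` in
`k* / k*²` such that (2) does not apply to the twists of `A`: it applies to all the twists of `A` by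
elements `a` of all the finite extensions `F` of `k`, `a` not in `q F*²`. -/
theorem result {K : Type u} [Field K] [NumberField K] {I : Type} [Countable I]
    (A : ∀ k : IntermediateField K (AlgebraicClosure K), I → Over (Spec (.of k)))
    [∀ k i, GrpObj (A k i)] [∀ k i, IsAbVar (A k i)] (X : Set K)
    (hX : ¬ FiniteDimensional K (sqrtExt X)) :
    ∃ S : ℕ → Finset K, (∀ j, (S j : Set K) ⊆ X) ∧ (∀ i j, i ≠ j → Disjoint (S i) (S j)) ∧
      (∀ T : Finset ℕ, T.Nonempty → ¬ IsSquare (∏ j ∈ T, ∏ b ∈ S j, b)) ∧
      ∀ (k : IntermediateField K (AlgebraicClosure K)) [NumberField k] (J : Finset I),
        ∃ E : Finset kˣ, E.card < 2 ^ J.card ∧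
          ∀ (F : IntermediateField k (AlgebraicClosure k)) [NumberField F],
            ∃ E' : Finset Fˣ, E'.card < 2 ^ J.card ∧ ∀ a : Fˣ,
              (∀ i ∈ J, GoodTail (A k i) (fun j => algebraMap K k (∏ b ∈ S j, b)) F 1 (a : F) ∨
                BadTail (A k i) (fun j => algebraMap K k (∏ b ∈ S j, b)) F (a : F)) ∧
              ((∀ b ∈ E', ¬ IsSquare (a * b)) → ∃ c : Fˣ, ∀ i ∈ J,
                GoodTail (A k i) (fun j => algebraMap K k (∏ b ∈ S j, b)) F (c : F) (a : F)) ∧
              ((∀ b ∈ E, ¬ IsSquare (a * Units.map (algebraMap k F).toMonoidHom b)) →
                ∃ (F₁ : IntermediateField k (AlgebraicClosure k)) (h : F ≤ F₁)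
                  (_ : NumberField F₁),
                  (IsSquare (IntermediateField.inclusion h (a : F)) → IsSquare (a : F)) ∧
                  ∀ i ∈ J, GoodTail (A k i) (fun j => algebraMap K k (∏ b ∈ S j, b)) F₁ 1
                    (IntermediateField.inclusion h (a : F))) :=
  universal A X hX

end Pool.Agent.Results.MP_ac3185_nt.AllExtensions
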