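import Pool.Agent.H.MP_ac3185_nt.helper16.Final

/-! Q1 (the parity conjecture) for at least half of all pairs of a quadratic twist of a given abelian
variety and a multiquadratic extension of the base field. -/

set_option autoImplicit false

open CategoryTheory AlgebraicGeometry NumberField IsDedekindDomain
open scoped MonObj symmDiff
open Pool.Agent.H.MP_ac3185_nt Pool.Agent.H.MP_ac3185_nt.HT

namespace Pool.Agent.Results.MP_ac3185_nt.HalfTwists

universe u

open Classical in
/-- Let `A` be an abelian variety over a number field `K`. There are numbers `N ≥ 1` and `c` with the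
following property. Let `T` be a finite set of prime numbers, `C` the set of the `2 ^ |T|` squarefree
numbers with prime factors in `T`, and `H` the set of those numbers in `C` which are prime to `8 N` and
squares modulo `8 N`. (Here a squarefree number is given by the set `S` of its prime factors, and
`num S` is the number; `C` is `T.powerset` and `H` is `niceSets N T`.) Then `|C| ≤ c |H|`.

Let `m ≥ 1`, `d` in `C` and `D 0, ..., D (m-1)` in `H` be such that `F₀ = K(√(D 0), ..., √(D (m-1)))` has
degree `2 ^ m` over `K`. Let `F` be `F₀` or, more generally, a finite Galois extension of `K` which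
contains `F₀`, whose Galois group has a normal `2`-complement (for instance a nilpotent group) and
whose quadratic subextensions lie in `F₀` (`Over2 F₀ F`). Then the global root number over `F` of the
quadratic twist of `A` by `d` is `1` (`SignOne`).

The number of the tuples `(d, D 0, ..., D (m-1))` for which, moreover, the rank over `F` of this twist
is even for all such `F` (`GoodPair`), so that the parity conjecture is true for it over all these `F`,
is at least `(1 / 2 - 2 ^ m * [K : ℚ] / |H|) * |C| * |H| ^ m`. -/
theorem result {K : Type u} [Field K] [NumberField K] (A : Over (Spec (.of K))) [GrpObj A]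
    [IsAbVar A] :
    ∃ N c : ℕ, 0 < N ∧ ∀ T : Finset ℕ, (∀ q ∈ T, q.Prime) →
      2 ^ T.card ≤ c * (niceSets N T).card ∧
      ∀ m : ℕ, 1 ≤ m →
        (∀ S ∈ T.powerset, ∀ D : Fin m → Finset ℕ, (∀ i, D i ∈ niceSets N T) →
          Module.finrank K (sqrtField K D) = 2 ^ m →
            ∀ F, Over2 (sqrtField K D) F → SignOne A S F) ∧
        2 ^ T.card * (niceSets N T).card ^ m ≤
          2 * ((T.powerset ×ˢ Fintype.piFinset (fun _ : Fin m => niceSets N T)).filter
            (fun p => GoodPair A p.1 p.2)).card +
          2 * 2 ^ m * Module.finrank ℚ K * 2 ^ T.card * (niceSets N T).card ^ (m - 1) := by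
  obtain ⟨N, hN, hgood⟩ := gc_good A
  obtain ⟨c, hc⟩ := exists_index hN
  refine ⟨N, c, Nat.pos_of_ne_zero hN, fun T hT => ⟨hc T hT, fun m hm => ?_⟩⟩
  have hTp : ∀ S ∈ T.powerset, ∀ q ∈ S, q.Prime :=
    fun S hS q hq => hT q (Finset.mem_powerset.1 hS hq)
  have hsub : ∀ E ∈ niceSets N T, E ∈ T.powerset ∧ Nice N E := fun E hE => by
    unfold niceSets at hE
    exact Finset.mem_filter.1 hE
  refine ⟨fun S hS D hD hdeg F hF => ?_, ?_⟩
  · exact half_sign A hN hgood S (hTp S hS) hm D (fun i => hTp _ (hsub _ (hD i)).1)
      (fun i => (hsub _ (hD i)).2) hdeg F hF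
  · have h := half_count A T.powerset (niceSets N T) hTp (fun E hE => hTp E (hsub E hE).1)
      (niceSets_empty N T) (fun E hE E' hE' => niceSets_symmDiff hE hE')
      (fun S hS E hE => powerset_symmDiff hS (hsub E hE).1) m hm
    rw [Finset.card_powerset] at h
    exact h

end Pool.Agent.Results.MP_ac3185_nt.HalfTwists
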