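import Pool.Agent.H.MP_ac3185_nt.helper85.AllT

/-! The rank and the root number of an abelian variety over the fields `LM`, where `L / K` is an
extension of number fields of degree prime to `p` (Galois or not) and `M` runs through the fields in
Galois `p`-extensions of `K`, and Q1 (the parity conjecture). -/

set_option autoImplicit false

open CategoryTheory AlgebraicGeometry NumberField IsDedekindDomain
open scoped MonObj
open Pool.Agent.H.MP_ac3185_nt

namespace Pool.Agent.Results.MP_ac3185_nt.PrimeToP

universe u

/-- Let `A` be any abelian variety of dimension `g` over a number field `K`, `p` a prime number, `L / K`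
an extension of degree `n` prime to `p`, Galois or not, of even or odd degree, and let `M` be contained
in a finite Galois extension `E` of `K` (all fields inside an algebraic closure of `K`).

(I) Let the degree of `E / K` be a power of `p`. Suppose that there are Galois stable subgroups
`0 = N_0 ≤ ⋯ ≤ N_r = A[p^m]` of `A(Kbar)` and, for each `i`, a finite extension `F` of `K`, linearly
disjoint from `M`, a homomorphism `ψ` from `N_i` to the group of the `p`-th roots of unity, compatible
with the action of `Gal(Kbar/F)`, such that the kernels of its conjugates have the intersection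
`N_(i-1)`, and sets `T`, `O` of places of `F` as in `TowerLayer`; in particular `L` is linearly disjoint
from the field `K(N_i / N_(i-1), μ_p)`, which contains `F`, and at the places `v` of `F` outside `O` with
more than one place of `LF` above `v` the extension `MF / F` is unramified and `ψ` is etale or has fibres
divisible by `p`. Let `b` be the sum over `i` of the numbers `ρ`, where the elements of
`towerClasses p L F Rel T O`, for the set `Rel` of the relations of the conjugates of `ψ`, lie in `p ^ ρ`
classes modulo `p`-th powers (`TowerChain`). Then `A(LM)` is the union of at most `p ^ (b [M : K])`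
cosets of `A(M) + p ^ m A(LM)` (`MulCoverOver`). If `b = 0 < m`, then every point of `A(LM)` has a
multiple prime to `p` in `A(M)`. If `b [M : K] < m`, then `rk A(LM) = rk A(M)`. If `A(LM)` is finitely
generated (the theorem of Mordell and Weil), then `m (rk A(LM) - rk A(M)) ≤ b [M : K]`.

(II) Let `p` and the degree of `E / K` be odd, `A(LE)` finitely generated, and let the condition
`TowerChain` in (I) hold for the field `K` in the place of `M`, with bound `b`. Let `T` be a finite set
of finite places of `K`, outside which `A` has good reduction, and suppose that for every `v` in `T` one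
of the following holds: `v` is unramified in `LM`, and the root numbers of `A` over the unramified
extensions of `K_v` of even degree are `(-1) ^ r v` (this is true for the exponent `r v` of the
conductor of `A` at `v`); or `A` is semistable at `v` with a split torus of rank `r v` over `K_v`; or `A`
is semistable at `v`, the split part of the torus over the unramified quadratic extension of `K_v` has
the rank `r v`, and the ramification indices of the places of `LM` above `v` are odd. Then
`w(A/LM) = w(A/L) = (-1) ^ e w(A/K) ^ n` for the number `e = signExp L g T r`, which is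
`g (#∞_L + n #∞_K) + ∑ r v (g_v + n)`, where `g_v` is the number of places of `L` above `v`, and the
parity conjectures for `A` over `LM` and over `L` are equivalent.
If `n` is even, the parity conjecture holds for `A` over `L` if and only if `rk A(K) + e` is even, in
the case `b < m`, and if and only if [`rk A(K) + e` is odd if and only if some point of `A(L)` has no
multiple in `A(K)`], in the case `b < 2 m`.
If `n` is odd, the parity conjectures for `A` over `L` and over `K` are equivalent if and only if `e` is
even, in the case `b < m`, and if and only if [`e` is odd if and only if some point of `A(L)` has no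
multiple in `A(K)`], in the case `b < 2 m`.

(III) The data in (I) exist for `m = 1`, for all `A` and `p`, with a bound which does not depend on `M`:
there are a finite set `S₀` of places of `K`, outside which `A` has good reduction, and fields `F_i`,
`i < r`, in `K(A[p], μ_p)`, of degree prime to `p` over `K`, such that `TowerChain` is true for all
`L / K` of degree prime to `p` which are linearly disjoint from `K(A[p], μ_p)` (`DisjTor p A L`), all
finite sets `S` of places which contain `S₀`, and all `M / K` unramified outside `S` which are contained
in a Galois extension of degree a power of `p`; here `b` is the sum over `i` of the numbers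
`ρ_i + ∑ (g_v - 1)`, the sum over the places `v` of `F_i` above `S`, where `g_v` is the number of places
of `LF_i` above `v`, and `ρ_i = (s(LF_i) - s(F_i)) - (s(L) - s(K))`, if `F_i ≠ K`, and
`ρ_i = s(L) - s(K)`, if `F_i = K` (`rhoBoundP p L F_i`), for the `p`-rank `s(E)` of the class group of
`E` plus the `p`-rank of its group of units (`selRankP p E`). By (I), `rk A(LM) - rk A(M) ≤ b [M : K]`,
for instance for all layers `M` of all `ℤ_p^d`-extensions of `K` (for `S` which contains the places
above `p`). For all `v` there is a number `r v` as in the first case of (II).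

Example: `p = 3`, `K = ℚ`, `m = 1`; `A` is the twist of the elliptic curve 19a1, whose group of points of
order `3` is the direct sum of `ℤ/3` and `μ_3`, by the character `χ` of `ℚ(√-D)`, where `D > 0` is
squarefree and prime to `3` and `19`; `L` is totally real of degree prime to `3` and does not contain
`ℚ(√3D)`. Here `r = 2`, and `N_1`, `N_2 / N_1` are the twists of `ℤ/3`, `μ_3` by `χ`; for the two `ψ` with
the kernels `0` and `N_1` one has `F = ℚ(√3D)`, `F = ℚ(√-D)`; `T` is the set of all places for `i = 1` and
empty for `i = 2`; `O` is empty; the fibres are divisible by `3` at the places above `3` (good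
reduction), and both `ψ` are etale at all places outside `3`, except that with the kernel `N_1` at `19`.
If there is one place of `L(√-D)` above each place of `ℚ(√-D)` above `19` and `3` does not divide the
relative class number of `L(√-D) / L`, then `b = 0`, for `M = ℚ` and for all `M` in Galois extensions of
degree a power of `3` which are unramified outside the primes `q` such that `L ⊗ F_v`, for the two fields
`F` and `v | q` (for `q = 3`, `i = 1`: `L ⊗ F_v(μ_3)`), are fields. So every point of `A(LM)` has a
multiple prime to `3` in `A(M)`; `rk A(L) = rk A(ℚ)` is `0` if `19` is inert in `ℚ(√-D)`, and at most `1`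
if `19` splits in `ℚ(√-D)` (for `L = ℚ` this is the work of Frey). For `D = 2` this is the curve
`y² = x³ + x² - 37 x + 81`, with the point `(0, 9)` of infinite order; let `L = ℚ(x)`,
`x⁴ - x³ - 4 x² + x + 2 = 0` (discriminant `2777`, Galois group `S₄`, `3` and `19` are inert, and the
relative class number is prime to `3`): `rk A(L) = 1`, and `w(A/L) = -1`, since `e` is odd for
`T = {2, 19}`, `r 2 = 6`, `r 19 = 1`. Hence the parity conjecture holds for `A` over `LM` for all `M` in
Galois extensions of `ℚ` of odd degree unramified at `2`, and `rk A(LM) = rk A(M)` for all layers `M` of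
the cyclotomic `ℤ_3`-extension of `ℚ`. -/
theorem result {K : Type u} [Field K] [NumberField K] (p : ℕ) (hp : p.Prime)
    (A : Over (Spec (.of K))) [GrpObj A] [IsAbVar A] :
    (∀ (L M E : IntermediateField K (AlgebraicClosure K)) [FiniteDimensional K L]
      [FiniteDimensional K M] [FiniteDimensional K E] [IsGalois K E],
      (Module.finrank K L).Coprime p → M ≤ E → IsPGroup p (E ≃ₐ[K] E) →
      ∀ (m b : ℕ) (N : AddSubgroup (Pts A (AlgebraicClosure K))),
      (∀ x, InSub N x ↔ (p ^ m : ℕ) • x = 0) → TowerChain p L M A N b →
      MulCoverOver A L M (p ^ m) (p ^ (b * Module.finrank K M)) ∧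
      (b = 0 → 0 < m → ∀ x, FixPt A (L ⊔ M).fixingSubgroup x →
        ∃ k : ℕ, k.Coprime p ∧ FixPt A M.fixingSubgroup (k • x)) ∧
      (b * Module.finrank K M < m → rk A (L ⊔ M) = rk A M) ∧
      (Module.Finite ℤ (Pts A (L ⊔ M : IntermediateField K (AlgebraicClosure K))) →
        rk A M ≤ rk A (L ⊔ M) ∧
          m * (rk A (L ⊔ M) - rk A M) ≤ b * Module.finrank K M)) ∧
    (Odd p → ∀ (L M E : IntermediateField K (AlgebraicClosure K)) [FiniteDimensional K L]
      [FiniteDimensional K M] [FiniteDimensional K E] [IsGalois K E],
      (Module.finrank K L).Coprime p → M ≤ E → Odd (Module.finrank K E) →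
      Module.Finite ℤ (Pts A (L ⊔ E : IntermediateField K (AlgebraicClosure K))) →
      ∀ (m b : ℕ) (N : AddSubgroup (Pts A (AlgebraicClosure K))),
      (∀ x, InSub N x ↔ (p ^ m : ℕ) • x = 0) → TowerChain p L ⊥ A N b →
      ∀ g : ℕ, topologicalKrullDim A.left = g → ∀ W : LocalSigns K, IsRootNumbers A W →
        ∀ (T : Finset (HeightOneSpectrum (𝓞 K))) (r : HeightOneSpectrum (𝓞 K) → ℕ),
        (∀ v ∈ T, SplitTorus A v (r v) ∨ (QuadTorus A v (r v) ∧ OddRam (L ⊔ M) v) ∨
          (EvenSign W v (r v) ∧ UnrIn (L ⊔ M) v)) →
        (∀ v ∉ T, ∀ 𝔓, Above 𝔓 v → GoodAt A 𝔓) →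
          signOver W g (L ⊔ M) = signOver W g L ∧
          (ParityFor A g W (L ⊔ M) ↔ ParityFor A g W L) ∧
          signOver W g L = (-1) ^ signExp L g T r * signOver W g ⊥ ^ Module.finrank K L ∧
          (Even (Module.finrank K L) →
            (b < m → (ParityFor A g W L ↔ Even (rk A ⊥ + signExp L g T r))) ∧
            (b < 2 * m →
              (ParityFor A g W L ↔ (Odd (rk A ⊥ + signExp L g T r) ↔ NewPoint A L)))) ∧
          (Odd (Module.finrank K L) →
            (b < m → ((ParityFor A g W L ↔ ParityFor A g W ⊥) ↔ Even (signExp L g T r))) ∧
            (b < 2 * m → ((ParityFor A g W L ↔ ParityFor A g W ⊥) ↔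
              (Odd (signExp L g T r) ↔ NewPoint A L))))) ∧
    ∃ (S₀ : Finset (HeightOneSpectrum (𝓞 K))) (r : ℕ)
      (F : ℕ → IntermediateField K (AlgebraicClosure K))
      (S' : Finset (HeightOneSpectrum (𝓞 K)) → ∀ i, Finset (HeightOneSpectrum (𝓞 (F i)))),
      (∀ v ∉ S₀, ∀ 𝔓, Above 𝔓 v → GoodAt A 𝔓) ∧
      (∀ W : LocalSigns K, IsRootNumbers A W → ∀ v, ∃ a, EvenSign W v a) ∧
      (∀ S i v, v ∈ S' S i ↔ ∃ v₀ ∈ S, Divides (F i) v v₀) ∧
      (∀ i < r, FiniteDimensional K (F i) ∧ (Module.finrank K (F i)).Coprime p ∧
        ∀ s, FixTor p A s → s ∈ (F i).fixingSubgroup) ∧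
      ∀ (L M E : IntermediateField K (AlgebraicClosure K)) [FiniteDimensional K L]
        [FiniteDimensional K M] [FiniteDimensional K E] [IsGalois K E],
        (Module.finrank K L).Coprime p → DisjTor p A L → M ≤ E → IsPGroup p (E ≃ₐ[K] E) →
        ∀ S : Finset (HeightOneSpectrum (𝓞 K)), S₀ ⊆ S → (∀ v ∉ S, UnrIn M v) →
        ∀ N : AddSubgroup (Pts A (AlgebraicClosure K)), (∀ x, InSub N x ↔ p • x = 0) →
          TowerChain p L M A N
            (∑ i ∈ Finset.range r, (rhoBoundP p L (F i) + excessOver L (F i) (S' S i))) :=
  wk_all p hp A

end Pool.Agent.Results.MP_ac3185_nt.PrimeToP
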