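import Pool.Agent.H.MP_ac3185_nt.V8.Final

/-! The growth of the rank and the change of the root number of an abelian variety in an extension
of number fields of odd degree (Galois or not), and Q1 (the parity conjecture). -/

set_option autoImplicit false

open CategoryTheory AlgebraicGeometry NumberField IsDedekindDomain
open scoped MonObj
open Pool.Agent.H.MP_ac3185_nt

namespace Pool.Agent.Results.MP_ac3185_nt.RankGrowth

universe u

/-- Let `A` be any abelian variety over a number field `K`, and let `L / K` be an extension of odd
degree, Galois or not (inside an algebraic closure of `K`). Suppose that there are Galois stable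
subgroups `0 = N_0 ≤ ⋯ ≤ N_r = A[2^m]` of `A(Kbar)` and, for each `i`, a finite extension `F` of `K`, a
subgroup `H` of index at most `2` of `N_i`, stable under `Gal(Kbar/F)`, whose conjugates have the
intersection `N_(i-1)`, and sets `Rel`, `T`, `R`, `S` as in `LayerAt`; in particular `L` is linearly
disjoint from the field `K(N_i / N_(i-1))`, which contains `F`. Let `b` be the sum over `i` of the
numbers `ρ + ∑ (g_v - 1)`, `v ∈ S`, where `g_v` is the number of places of `LF` above `v`, and where
the elements of `frameClasses L F Rel T R` lie in `2 ^ ρ` square classes (`ModChain`).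

(1) `A(L)` is the union of at most `2 ^ b` cosets of `A(K) + 2 ^ m A(L)` (`MulBound A L (2 ^ m) b`). If
`b < m` then every point of `A(L)` has a multiple in `A(K)`, and the ranks are equal. If `A(L)` is
finitely generated (the theorem of Mordell and Weil) then `m (rk A(L) - rk A(K)) ≤ b`.

(2) Suppose that for every finite place `v` of `K` in the finite set `T` one of the following holds:
`v` is unramified in `L`, and the root numbers of `A` over the unramified extensions of `K_v` of even
degree are `(-1) ^ r v` (this is true for the exponent `r v` of the conductor of `A` at `v`); or `A` is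
semistable at `v` with a split torus of rank `r v` over `K_v`; or `A` is semistable at `v`, the split
part of the torus over the unramified quadratic extension of `K_v` has the rank `r v`, and the
ramification indices of the places of `L` above `v` are odd.
Suppose that `MildAt` holds for the finite places outside `T`: good reduction, or one place of `L` above
`v`, and this place is unramified or `A` is semistable at `v`. Then `w(A/L) = (-1) ^ e w(A/K)` for the
number `e = signChange L g T r`, which is `g (#∞_L + #∞_K) + ∑ r v (g_v - 1)`.

(3) In the situation of (2), the parity conjecture for `A` over `L` is equivalent to the parity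
conjecture for `A` over `K` if and only if `e` is even, in the case `b < m`, and if and only if
[`e` is odd if and only if some point of `A(L)` has no multiple in `A(K)`], in the case `b < 2 m` for
finitely generated `A(L)`.

(4) Such subgroups, fields and sets exist for `m = 1` and for every abelian variety `A / K`, with a
bound in terms of class groups: there are a finite set `S₀` of places of `K`, outside which `A` has good
reduction, and fields `F_i`, `i < r`, in `K(A[2])` of odd degree over `K`, such that for all `L / K` of
odd degree which are linearly disjoint from `K(A[2])` (`DisjTwo A L`) the above is true with `b` the sum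
over `i` of the numbers `ρ_i + ∑ (g_v - 1)`, the sum over the places `v` of `F_i` above `S₀`, where
`ρ_i = (s(LF_i) - s(F_i)) - (s(L) - s(K))`, if `F_i ≠ K`, and `ρ_i = s(L) - s(K)`, if `F_i = K`
(`rhoBound L F_i`), for the `2`-rank `s(E)` of the class group of `E` plus the number of the infinite
places of `E`. By (1), `A(L)` is the union of at most `2 ^ b` cosets of `A(K) + 2 A(L)`, and
`rk A(L) - rk A(K) ≤ b`. For all `v` there is a number `r v` as in the first case of (2).

Example 1: the elliptic curve `E`: `y² + x y + y = x³ + x² + x` over `K = ℚ` (conductor 83, ordinary at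
`2`) has no isogeny of degree `2`. Let `r = m = 1`, `H = {0, t}` for a point `t` of order `2`,
`F = ℚ(t)` (the cubic field of discriminant `-83`), `Rel = {the set of all cosets}`, `T` the place of `F`
above `2` with the residue field of order `2` at which `E[2] / H` is etale, `R` and `S` empty. For the
cubic field `L` of discriminant `-23` one gets `b = 0`, `e` is even, and `rk E(L) = rk E(ℚ) = 1`; for
the cubic field `L` of discriminant `-107` one gets `b = 1`, `e` is odd, and the line
`y = -2 x - 2` meets `E` in a new point over `L`, so `rk E(L) = 2`.

Example 2: an elliptic curve `E / K` with a rational point `t` of order `2`, with ordinary or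
multiplicative reduction at the places above `2`, and `L / K` unramified at the places of bad
reduction. Here `m = 1`, `r = 2`, `N_1 = {0, t}`, `F = K`, `H = N_(i-1)`, `Rel` is empty, `T` is the set
of the places above `2` at which `N_i / N_(i-1)` is etale; a multiplicative place belongs to one of the
sets `S`, an additive place to at most both. If `a_v` is the exponent of the conductor of `E`, then
`rk E(L) - rk E(K) ≤ ρ + ρ' + ∑ a_v (g_v - 1)` and `w(E/L) = (-1) ^ e w(E/K)` for
`e = r_2(L) - r_2(K) + ∑ a_v (g_v - 1)` modulo `2`; the bound and `e` have the same parity.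
For the curve `y² + x y = x³ + x² + x` (conductor 39) over the cubic field of discriminant `-23` the
bound is `1` and there is a new point. -/
theorem result {K : Type u} [Field K] [NumberField K]
    (A : Over (Spec (.of K))) [GrpObj A] [IsAbVar A] :
    (∀ (L : IntermediateField K (AlgebraicClosure K)) [FiniteDimensional K L],
      Odd (Module.finrank K L) → ∀ m b : ℕ, ModChain L A (torSub A (2 ^ m)) b →
      MulBound A L (2 ^ m) b ∧
      (b < m → ¬ NewPoint A L ∧ rk A L = rk A ⊥) ∧
      (Module.Finite ℤ (Pts A L) → rk A ⊥ ≤ rk A L ∧ m * (rk A L - rk A ⊥) ≤ b) ∧
      ∀ g : ℕ, topologicalKrullDim A.left = g → ∀ W : LocalSigns K, IsRootNumbers A W →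
        ∀ (T : Finset (HeightOneSpectrum (𝓞 K))) (r : HeightOneSpectrum (𝓞 K) → ℕ),
        (∀ v ∈ T, SplitTorus A v (r v) ∨ (QuadTorus A v (r v) ∧ OddRam L v) ∨
          (EvenSign W v (r v) ∧ UnrIn L v)) →
        (∀ v ∉ T, ∀ 𝔓, Above 𝔓 v → MildAt A L 𝔓) →
          signOver W g L = (-1) ^ signChange L g T r * signOver W g ⊥ ∧
          (b < m → ((ParityFor A g W L ↔ ParityFor A g W ⊥) ↔ Even (signChange L g T r))) ∧
          (b < 2 * m → Module.Finite ℤ (Pts A L) →
            ((ParityFor A g W L ↔ ParityFor A g W ⊥) ↔
              (Odd (signChange L g T r) ↔ NewPoint A L)))) ∧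
    ∃ (S₀ : Finset (HeightOneSpectrum (𝓞 K))) (r : ℕ)
      (F : ℕ → IntermediateField K (AlgebraicClosure K))
      (S : ∀ i, Finset (HeightOneSpectrum (𝓞 (F i)))),
      (∀ v ∉ S₀, ∀ 𝔓, Above 𝔓 v → GoodAt A 𝔓) ∧
      (∀ W : LocalSigns K, IsRootNumbers A W → ∀ v, ∃ a, EvenSign W v a) ∧
      (∀ i v, v ∈ S i ↔ ∃ v₀ ∈ S₀, Divides (F i) v v₀) ∧
      (∀ i < r, FiniteDimensional K (F i) ∧ Odd (Module.finrank K (F i)) ∧
        ∀ s, (∀ x, InSub (torSub A 2) x → act A s x = x) → s ∈ (F i).fixingSubgroup) ∧
      ∀ (L : IntermediateField K (AlgebraicClosure K)) [FiniteDimensional K L],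
        Odd (Module.finrank K L) → DisjTwo A L →
          ModChain L A (torSub A 2)
            (∑ i ∈ Finset.range r, (rhoBound L (F i) + excessOver L (F i) (S i))) :=
  v8_all A

end Pool.Agent.Results.MP_ac3185_nt.RankGrowth
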